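import Mathlib
import Pool.Agent.R268.TB.Sort

set_option autoImplicit false

/-!
# Triangular T-bases from strongly series summable M-bases (real summability matrices)

Every strongly series summable M-basis with a *real* summability matrix becomes a triangular
T-basis (with a real triangular consistent matrix) after a permutation. In particular the answer to
Q1 is yes for all real Banach spaces, and even some permutation of the given M-basis works.
-/

open Filter Topology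

namespace Pool.Agent.Results.MP_843e59_an.RealMatrixSSS

/-- `(x, f)` is an M-basis of `E`. -/
structure IsMBasis (𝕜 : Type) [RCLike 𝕜] {E : Type} [NormedAddCommGroup E] [NormedSpace 𝕜 E]
    (x : ℕ → E) (f : ℕ → E →L[𝕜] 𝕜) : Prop where
  biorthogonal : ∀ i j : ℕ, f i (x j) = if i = j then (1 : 𝕜) else 0
  dense_span : Dense ((Submodule.span 𝕜 (Set.range x) : Submodule 𝕜 E) : Set E)
  total : ∀ y : E, (∀ n : ℕ, f n y = 0) → y = 0

/-- The triangular matrix `l` (only its entries with `i ≤ n` are used) is a summability matrix for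
`(x, f)`: `∑_{i ≤ n} l n i • f i y • x i → y` for every `y`. -/
def SummabilityMatrix (𝕜 : Type) [RCLike 𝕜] {E : Type} [NormedAddCommGroup E] [NormedSpace 𝕜 E]
    (x : ℕ → E) (f : ℕ → E →L[𝕜] 𝕜) (l : ℕ → ℕ → 𝕜) : Prop :=
  ∀ y : E, Tendsto (fun n : ℕ => ∑ i ∈ Finset.range (n + 1), l n i • f i y • x i) atTop (𝓝 y)

/-- `(x, f)` is a T-basis with respect to the triangular consistent matrix `t`. -/
structure IsTriangularTBasis (𝕜 : Type) [RCLike 𝕜] {E : Type} [NormedAddCommGroup E]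
    [NormedSpace 𝕜 E] (x : ℕ → E) (f : ℕ → E →L[𝕜] 𝕜) (t : ℕ → ℕ → 𝕜) : Prop where
  biorthogonal : ∀ i j : ℕ, f i (x j) = if i = j then (1 : 𝕜) else 0
  triangular : ∀ n m : ℕ, n < m → t n m = 0
  bounded : ∃ C : ℝ, ∀ n : ℕ, ∑ m ∈ Finset.range (n + 1), ‖t n m‖ ≤ C
  columns : ∀ m : ℕ, Tendsto (fun n : ℕ => t n m) atTop (𝓝 0)
  rows : Tendsto (fun n : ℕ => ∑ m ∈ Finset.range (n + 1), t n m) atTop (𝓝 1)
  summable : ∀ y : E, Tendsto (fun n : ℕ => ∑ m ∈ Finset.range (n + 1),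
    t n m • ∑ i ∈ Finset.range (m + 1), f i y • x i) atTop (𝓝 y)

/-- (1) Real scalars: every SSS M-basis is, after a permutation, a triangular T-basis.
(2) Real or complex scalars: the same for every SSS M-basis that has a real summability matrix;
the consistent matrix of the T-basis is real too. -/
theorem result :
    (∀ (E : Type) [NormedAddCommGroup E] [NormedSpace ℝ E] [CompleteSpace E]
      (x : ℕ → E) (f : ℕ → E →L[ℝ] ℝ) (l : ℕ → ℕ → ℝ),
      IsMBasis ℝ x f → SummabilityMatrix ℝ x f l →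
        ∃ (σ : Equiv.Perm ℕ) (t : ℕ → ℕ → ℝ), IsTriangularTBasis ℝ (x ∘ σ) (f ∘ σ) t) ∧
    (∀ (𝕜 : Type) [RCLike 𝕜] (E : Type) [NormedAddCommGroup E] [NormedSpace 𝕜 E]
      [CompleteSpace E] (x : ℕ → E) (f : ℕ → E →L[𝕜] 𝕜) (l : ℕ → ℕ → ℝ),
      IsMBasis 𝕜 x f → SummabilityMatrix 𝕜 x f (fun n i => (l n i : 𝕜)) →
        ∃ (σ : Equiv.Perm ℕ) (t : ℕ → ℕ → ℝ),
          IsTriangularTBasis 𝕜 (x ∘ σ) (f ∘ σ) (fun n m => (t n m : 𝕜))) := by
  have main : ∀ (𝕜 : Type) [RCLike 𝕜] (E : Type) [NormedAddCommGroup E] [NormedSpace 𝕜 E]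
      [CompleteSpace E] (x : ℕ → E) (f : ℕ → E →L[𝕜] 𝕜) (l : ℕ → ℕ → ℝ),
      IsMBasis 𝕜 x f → SummabilityMatrix 𝕜 x f (fun n i => (l n i : 𝕜)) →
        ∃ (σ : Equiv.Perm ℕ) (t : ℕ → ℕ → ℝ),
          IsTriangularTBasis 𝕜 (x ∘ σ) (f ∘ σ) (fun n m => (t n m : 𝕜)) := by
    intro 𝕜 _ E _ _ _ x f l hM hl
    obtain ⟨σ, t, h1, ⟨C, h2⟩, h3, h4, h5⟩ :=
      Pool.Agent.R268.TB.main (𝕜 := 𝕜) x f l hM.biorthogonal hl
    refine ⟨σ, t, ?_, ?_, ⟨C, ?_⟩, ?_, ?_, h5⟩
    · intro i j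
      simp only [Function.comp, hM.biorthogonal, EmbeddingLike.apply_eq_iff_eq]
    · intro n m hnm
      rw [h1 n m hnm]; simp
    · intro n
      simpa only [RCLike.norm_ofReal] using h2 n
    · intro m
      have := (RCLike.continuous_ofReal (K := 𝕜)).tendsto 0 |>.comp (h3 m)
      simp only [RCLike.ofReal_zero] at this
      exact this
    · have := (RCLike.continuous_ofReal (K := 𝕜)).tendsto 1 |>.comp h4
      simp only [RCLike.ofReal_one] at this
      refine this.congr fun n => ?_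
      simp [Function.comp]
  refine ⟨?_, main⟩
  intro E _ _ _ x f l hM hl
  obtain ⟨σ, t, ht⟩ := main ℝ E x f l hM (by
    intro y
    simpa using hl y)
  exact ⟨σ, t, by simpa using ht⟩

end Pool.Agent.Results.MP_843e59_an.RealMatrixSSS
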